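import Pool.Agent.helper85.FC.Defs
import Pool.Agent.helper85.MT.Large

/-!
# FC module B6: the sum over all moduli
-/

set_option autoImplicit false

namespace Pool.Agent.helper85.FC

open Finset Real ArithmeticFunction Pool.Agent.helper39.MT

/-- `∏ p ≤ (#S + 1) ∏ (p - 1)` for a finite set of integers at least `2`. -/
lemma B6_prod (S : Finset ℕ) : (∀ p ∈ S, 2 ≤ p) → ∏ p ∈ S, p ≤ (#S + 1) * ∏ p ∈ S, (p - 1) := by
  induction S using Finset.induction_on_max with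
  | empty => intro _; simp
  | insert p S hmax ih =>
    intro h
    have hpS : p ∉ S := fun hp => lt_irrefl _ (hmax p hp)
    have h2 : ∀ q ∈ S, 2 ≤ q := fun q hq => h q (mem_insert_of_mem hq)
    have hp2 : 2 ≤ p := h p (mem_insert_self _ _)
    have hcard : #S + 2 ≤ p := by
      have hsub : S ⊆ Ico 2 p := fun q hq => mem_Ico.mpr ⟨h2 q hq, hmax q hq⟩
      have := card_le_card hsub
      rw [Nat.card_Ico] at this
      omega
    rw [prod_insert hpS, prod_insert hpS, card_insert_of_notMem hpS]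
    have h3 : p * (#S + 1) ≤ (#S + 1 + 1) * (p - 1) := by
      obtain ⟨q, rfl⟩ : ∃ q, p = q + 1 := ⟨p - 1, by omega⟩
      rw [Nat.add_sub_cancel]
      nlinarith
    calc p * ∏ q ∈ S, q ≤ p * ((#S + 1) * ∏ q ∈ S, (q - 1)) := Nat.mul_le_mul_left _ (ih h2)
      _ = (p * (#S + 1)) * ∏ q ∈ S, (q - 1) := by ring
      _ ≤ ((#S + 1 + 1) * (p - 1)) * ∏ q ∈ S, (q - 1) := Nat.mul_le_mul_right _ h3
      _ = (#S + 1 + 1) * ((p - 1) * ∏ q ∈ S, (q - 1)) := by ring

lemma B6_omega (n : ℕ) (hn : 0 < n) : n.primeFactors.card ≤ Nat.log 2 n := by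
  refine Nat.le_log_of_pow_le (by norm_num) ?_
  calc 2 ^ n.primeFactors.card = ∏ _p ∈ n.primeFactors, 2 := by rw [prod_const]
    _ ≤ ∏ p ∈ n.primeFactors, p :=
        prod_le_prod' fun p hp => (Nat.prime_of_mem_primeFactors hp).two_le
    _ ≤ n := Nat.le_of_dvd hn (Nat.prod_primeFactors_dvd n)

lemma B6_phi (n : ℕ) (hn : 0 < n) : n ≤ (Nat.log 2 n + 1) * Nat.totient n := by
  have h1 := Nat.totient_mul_prod_primeFactors n
  have h2 := B6_prod n.primeFactors fun p hp => (Nat.prime_of_mem_primeFactors hp).two_le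
  have h3 : 0 < ∏ p ∈ n.primeFactors, p :=
    prod_pos fun p hp => (Nat.prime_of_mem_primeFactors hp).pos
  have h4 : 0 < ∏ p ∈ n.primeFactors, (p - 1) :=
    prod_pos fun p hp => Nat.sub_pos_of_lt (Nat.prime_of_mem_primeFactors hp).one_lt
  have h5 : n * ∏ p ∈ n.primeFactors, (p - 1)
      ≤ ((n.primeFactors.card + 1) * Nat.totient n) * ∏ p ∈ n.primeFactors, (p - 1) := by
    calc n * ∏ p ∈ n.primeFactors, (p - 1) = Nat.totient n * ∏ p ∈ n.primeFactors, p := h1.symm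
      _ ≤ Nat.totient n * ((n.primeFactors.card + 1) * ∏ p ∈ n.primeFactors, (p - 1)) :=
          Nat.mul_le_mul_left _ h2
      _ = _ := by ring
  have h6 := Nat.le_of_mul_le_mul_right h5 h4
  exact h6.trans (Nat.mul_le_mul_right _ (Nat.add_le_add_right (B6_omega n hn) 1))

/-- `∑ 1/φ(n) ≤ (1 + 2 log M) (1 + log M)`. -/
lemma B6_sum_inv (M : ℕ) (hM : 1 ≤ M) :
    ∑ n ∈ Icc 1 M, 1 / (Nat.totient n : ℝ) ≤ (1 + 2 * Real.log M) * (1 + Real.log M) := by
  have hM0 : (0 : ℝ) < M := by exact_mod_cast hM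
  have h1 : ∀ n ∈ Icc 1 M, 1 / (Nat.totient n : ℝ) ≤ (1 + 2 * Real.log M) * (n : ℝ)⁻¹ := by
    intro n hn
    rw [mem_Icc] at hn
    have hn0 : (0 : ℝ) < n := by exact_mod_cast hn.1
    have hφ : (0 : ℝ) < Nat.totient n := by exact_mod_cast Nat.totient_pos.mpr hn.1
    have h2 : (n : ℝ) ≤ ((Nat.log 2 n : ℕ) + 1 : ℝ) * Nat.totient n := by
      exact_mod_cast B6_phi n hn.1
    have h3 : ((Nat.log 2 n : ℕ) : ℝ) ≤ 2 * Real.log M := by
      have h6 : (2 : ℝ) ^ Nat.log 2 n ≤ n := by exact_mod_cast Nat.pow_log_le_self 2 (by omega)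
      have h7 := Real.log_le_log (by positivity) h6
      rw [Real.log_pow] at h7
      have h8 := Real.log_two_gt_d9
      have h9 : (0 : ℝ) ≤ (Nat.log 2 n : ℕ) := Nat.cast_nonneg _
      have h10 : Real.log n ≤ Real.log M := Real.log_le_log hn0 (by exact_mod_cast hn.2)
      nlinarith
    rw [div_le_iff₀ hφ, mul_assoc, ← div_eq_inv_mul, ← mul_div_assoc, le_div_iff₀ hn0, one_mul]
    refine h2.trans ?_
    refine mul_le_mul_of_nonneg_right ?_ hφ.le
    linarith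
  refine (sum_le_sum h1).trans ?_
  rw [← mul_sum]
  have hlog : 0 ≤ Real.log M := Real.log_natCast_nonneg M
  refine mul_le_mul_of_nonneg_left ?_ (by linarith)
  have h2 := harmonic_le_one_add_log M
  rw [harmonic_eq_sum_Icc] at h2
  push_cast at h2
  exact h2

open Classical in
lemma B6_TP_nonneg (a : ℝ) (r : ℕ) : 0 ≤ TP a r := sum_nonneg fun _ _ => norm_nonneg _

/-- exchanging the sums. -/
lemma B6_swap (a : ℝ) (M : ℕ) (hM : 1 ≤ M) :
    ∑ m ∈ Icc 1 M, ((1 / (Nat.totient m : ℝ)) * ∑ r ∈ m.divisors with 2 ≤ r, TP a r)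
      ≤ (∑ r ∈ Icc 2 M, TP a r / Nat.totient r) *
        ((1 + 2 * Real.log M) * (1 + Real.log M)) := by
  have h1 : ∑ m ∈ Icc 1 M, ((1 / (Nat.totient m : ℝ)) * ∑ r ∈ m.divisors with 2 ≤ r, TP a r)
      = ∑ r ∈ Icc 2 M, ∑ m ∈ Icc 1 M with r ∣ m, TP a r * (1 / (Nat.totient m : ℝ)) := by
    have e1 : ∀ m ∈ Icc 1 M, (1 / (Nat.totient m : ℝ)) * ∑ r ∈ m.divisors with 2 ≤ r, TP a r
        = ∑ r ∈ Icc 2 M, if r ∣ m then TP a r * (1 / (Nat.totient m : ℝ)) else 0 := by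
      intro m hm
      rw [mem_Icc] at hm
      rw [mul_sum, ← sum_filter]
      have e2 : m.divisors.filter (fun r => 2 ≤ r) = (Icc 2 M).filter (fun r => r ∣ m) := by
        ext r
        simp only [mem_filter, Nat.mem_divisors, mem_Icc]
        constructor
        · rintro ⟨⟨h1, h2⟩, h3⟩
          exact ⟨⟨h3, (Nat.le_of_dvd (by omega) h1).trans hm.2⟩, h1⟩
        · rintro ⟨⟨h1, h2⟩, h3⟩
          exact ⟨⟨h3, by omega⟩, h1⟩
      rw [e2]
      exact sum_congr rfl fun r _ => mul_comm _ _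
    rw [sum_congr rfl e1, sum_comm]
    refine sum_congr rfl fun r _ => ?_
    rw [sum_filter]
  rw [h1, sum_mul]
  refine sum_le_sum fun r hr => ?_
  rw [mem_Icc] at hr
  have hr0 : 0 < r := by omega
  have hφ : (0 : ℝ) < Nat.totient r := by exact_mod_cast Nat.totient_pos.mpr hr0
  rw [← mul_sum, div_mul_eq_mul_div, mul_div_assoc]
  refine mul_le_mul_of_nonneg_left ?_ (B6_TP_nonneg a r)
  rw [le_div_iff₀ hφ]
  refine le_trans ?_ (B6_sum_inv M hM)
  rw [sum_mul]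
  -- the map `m ↦ m / r`
  calc ∑ m ∈ Icc 1 M with r ∣ m, 1 / (Nat.totient m : ℝ) * Nat.totient r
      ≤ ∑ m ∈ Icc 1 M with r ∣ m, 1 / (Nat.totient (m / r) : ℝ) := by
        refine sum_le_sum fun m hm => ?_
        rw [mem_filter, mem_Icc] at hm
        obtain ⟨k, rfl⟩ := hm.2
        have hk : 0 < k := Nat.pos_of_ne_zero (by rintro rfl; simp at hm)
        rw [Nat.mul_div_cancel_left k hr0]
        have h2 : (0 : ℝ) < Nat.totient k := by exact_mod_cast Nat.totient_pos.mpr hk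
        have h3 : (0 : ℝ) < Nat.totient (r * k) := by
          exact_mod_cast Nat.totient_pos.mpr (Nat.mul_pos hr0 hk)
        have h4 : (Nat.totient r : ℝ) * Nat.totient k ≤ Nat.totient (r * k) := by
          exact_mod_cast Nat.totient_super_multiplicative r k
        rw [one_div_mul_eq_div, div_le_div_iff₀ h3 h2, one_mul]
        exact h4
    _ = ∑ k ∈ ((Icc 1 M).filter (fun m => r ∣ m)).image (fun m => m / r), 1 / (Nat.totient k : ℝ) := by
        rw [sum_image]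
        intro m hm m' hm' h
        rw [mem_coe, mem_filter] at hm hm'
        simp only at h
        rw [← Nat.div_mul_cancel hm.2, ← Nat.div_mul_cancel hm'.2, h]
    _ ≤ ∑ k ∈ Icc 1 M, 1 / (Nat.totient k : ℝ) := by
        refine sum_le_sum_of_subset_of_nonneg ?_ fun _ _ _ => by positivity
        intro k hk
        rw [mem_image] at hk
        obtain ⟨m, hm, rfl⟩ := hk
        rw [mem_filter, mem_Icc] at hm
        rw [mem_Icc]
        exact ⟨Nat.div_pos (Nat.le_of_dvd (by omega) hm.2) hr0, (Nat.div_le_self _ _).trans hm.1.2⟩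

open Classical in
/-- small conductors. -/
lemma B6_small (small_TT : ∀ B K : ℕ, ∃ C a₁ : ℝ, 0 < C ∧ ∀ a : ℝ, a₁ ≤ a → ∀ q : ℕ, 2 ≤ q →
    (q : ℝ) ≤ a ^ B → ∀ χ : DirichletCharacter ℂ q, χ ≠ 1 → ‖TT χ 1 a‖ ≤ C / a ^ K)
    (B K : ℕ) : ∃ C a₁ : ℝ, 0 < C ∧ ∀ a : ℝ, a₁ ≤ a → ∀ r : ℕ, 2 ≤ r →
    (r : ℝ) ≤ a ^ B → TP a r / Nat.totient r ≤ C / a ^ K := by
  obtain ⟨C, a₁, hC, h⟩ := small_TT B K
  refine ⟨C, max a₁ 1, hC, fun a ha r hr hrB => ?_⟩
  have hr0 : 0 < r := by omega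
  have : NeZero r := ⟨hr0.ne'⟩
  have hφ : (0 : ℝ) < Nat.totient r := by exact_mod_cast Nat.totient_pos.mpr hr0
  have ha1 : 1 ≤ a := (le_max_right _ _).trans ha
  have hCa : 0 ≤ C / a ^ K := by positivity
  rw [div_le_iff₀ hφ, TP]
  calc ∑ χ : DirichletCharacter ℂ r with χ.IsPrimitive, ‖TT χ 1 a‖
      ≤ ∑ χ : DirichletCharacter ℂ r with χ.IsPrimitive, C / a ^ K := by
        refine sum_le_sum fun χ hχ => ?_
        rw [mem_filter] at hχ
        exact h a ((le_max_left _ _).trans ha) r hr hrB χ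
          (Pool.Agent.helper85.MT.prim_ne_one hr hχ.2)
    _ = ((#{χ : DirichletCharacter ℂ r | χ.IsPrimitive} : ℕ) : ℝ) * (C / a ^ K) := by
        rw [sum_const, nsmul_eq_mul]
    _ ≤ Nat.totient r * (C / a ^ K) :=
        mul_le_mul_of_nonneg_right (Pool.Agent.helper85.MT.card_prim_le r) hCa
    _ = C / a ^ K * Nat.totient r := mul_comm _ _

/-- exponentials beat powers. -/
lemma B6_exp (c : ℝ) (hc : 0 < c) (n : ℕ) : ∃ a₁ : ℝ, ∀ a : ℝ, a₁ ≤ a →
    Real.exp (-(c * a)) ≤ 1 / a ^ n := by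
  have h := (Real.tendsto_pow_mul_exp_neg_atTop_nhds_zero n).comp
    (Filter.tendsto_id.const_mul_atTop hc)
  have h1 : ∀ᶠ a in Filter.atTop, a ^ n * Real.exp (-(c * a)) < 1 := by
    have hcn : 0 < c ^ n := by positivity
    have h2 := h.eventually (gt_mem_nhds hcn)
    filter_upwards [h2] with a ha
    simp only [Function.comp_apply, id, mul_pow] at ha
    have h3 : c ^ n * (a ^ n * Real.exp (-(c * a))) < c ^ n * 1 := by
      rw [mul_one, ← mul_assoc]
      exact ha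
    exact lt_of_mul_lt_mul_left h3 hcn.le
  obtain ⟨a₁, h2⟩ := Filter.eventually_atTop.mp h1
  refine ⟨max a₁ 1, fun a ha => ?_⟩
  have ha1 : 1 ≤ a := (le_max_right _ _).trans ha
  have h3 := h2 a ((le_max_left _ _).trans ha)
  rw [le_div_iff₀ (by positivity), mul_comm]
  exact h3.le

/-- B6: the sum over all moduli (`bv_plain := B6_bv_plain_of small_TT TP_large`). -/
theorem B6_bv_plain_of
    (small_TT : ∀ B K : ℕ, ∃ C a₁ : ℝ, 0 < C ∧ ∀ a : ℝ, a₁ ≤ a → ∀ q : ℕ, 2 ≤ q →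
      (q : ℝ) ≤ a ^ B → ∀ χ : DirichletCharacter ℂ q, χ ≠ 1 → ‖TT χ 1 a‖ ≤ C / a ^ K)
    (TP_large : ∀ ε : ℝ, 0 < ε → ε ≤ 1 / 4 → ∃ C a₁ : ℝ, 0 < C ∧ ∀ a : ℝ, a₁ ≤ a →
      ∀ R₀ Q : ℕ, 1 ≤ R₀ → (Q : ℝ) ≤ Real.exp ((1 / 2 - ε) * a) →
      ∑ r ∈ (Icc 2 Q).filter (fun r => R₀ < r), TP a r / Nat.totient r
        ≤ C * a ^ 6 * (1 / R₀ + Real.exp (-(ε * a / 16))))
    (ε : ℝ) (hε : 0 < ε) (hε1 : ε ≤ 1 / 4) (K : ℕ) : ∃ a₁ : ℝ, ∀ a : ℝ, a₁ ≤ a →
    ∑ m ∈ Icc 1 ⌊Real.exp ((1 / 2 - ε) * a)⌋₊,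
      ((1 / (Nat.totient m : ℝ)) * ∑ r ∈ m.divisors with 2 ≤ r, TP a r) ≤ 1 / a ^ K := by
  obtain ⟨C1, a1, hC1, h1⟩ := B6_small small_TT (K + 9) (2 * K + 12)
  obtain ⟨C2, a2, hC2, h2⟩ := TP_large ε hε hε1
  obtain ⟨a3, h3⟩ := B6_exp (ε / 16) (by positivity) (K + 9)
  refine ⟨max (max (max a1 a2) a3) (max 2 (6 * (C1 + 3 * C2))), fun a ha => ?_⟩
  have ha1 : a1 ≤ a := le_trans (by simp) ha
  have ha2 : a2 ≤ a := le_trans (by simp) ha
  have ha3 : a3 ≤ a := le_trans (by simp) ha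
  have ha4 : 2 ≤ a := le_trans (by simp) ha
  have ha5 : 6 * (C1 + 3 * C2) ≤ a := le_trans (by simp) ha
  have ha0 : 0 < a := by linarith
  set M := ⌊Real.exp ((1 / 2 - ε) * a)⌋₊ with hM
  have hMle : (M : ℝ) ≤ Real.exp ((1 / 2 - ε) * a) := Nat.floor_le (Real.exp_pos _).le
  have hM1 : 1 ≤ M := by
    refine Nat.le_floor ?_
    push_cast
    exact Real.one_le_exp (mul_nonneg (by linarith) ha0.le)
  have hM0 : (0 : ℝ) < M := by exact_mod_cast hM1
  have hlogM : Real.log M ≤ a / 2 := by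
    rw [Real.log_le_iff_le_exp hM0]
    refine hMle.trans (Real.exp_le_exp.mpr ?_)
    nlinarith
  have hlogM0 : 0 ≤ Real.log M := Real.log_natCast_nonneg M
  refine (B6_swap a M hM1).trans ?_
  have hfac : (1 + 2 * Real.log M) * (1 + Real.log M) ≤ 3 * a ^ 2 := by
    calc (1 + 2 * Real.log M) * (1 + Real.log M) ≤ (1 + a) * (1 + a / 2) :=
          mul_le_mul (by linarith) (by linarith) (by linarith) (by linarith)
      _ ≤ 3 * a ^ 2 := by nlinarith
  set R₀ := ⌊a ^ (K + 9)⌋₊ with hR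
  have hpow1 : 1 ≤ a ^ (K + 9) := one_le_pow₀ (by linarith)
  have hR1 : 1 ≤ R₀ := Nat.le_floor (by simpa using hpow1)
  have hRle : (R₀ : ℝ) ≤ a ^ (K + 9) := Nat.floor_le (by positivity)
  have hRge : a ^ (K + 9) ≤ 2 * R₀ := by
    have h4 := Nat.lt_floor_add_one (a ^ (K + 9))
    have h5 : (1 : ℝ) ≤ R₀ := by exact_mod_cast hR1
    rw [← hR] at h4
    linarith
  have hR0 : (0 : ℝ) < R₀ := by exact_mod_cast hR1
  have hpow0 : 0 < a ^ (K + 9) := by positivity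
  -- split
  have hsplit : ∑ r ∈ Icc 2 M, TP a r / Nat.totient r
      = ∑ r ∈ (Icc 2 M).filter (fun r => R₀ < r), TP a r / Nat.totient r
        + ∑ r ∈ (Icc 2 M).filter (fun r => ¬ R₀ < r), TP a r / Nat.totient r :=
    (sum_filter_add_sum_filter_not _ _ _).symm
  have hlarge := h2 a ha2 R₀ M hR1 hMle
  have hl2 : C2 * a ^ 6 * (1 / R₀ + Real.exp (-(ε * a / 16))) ≤ 3 * C2 * a ^ 6 / a ^ (K + 9) := by
    have h4 : 1 / (R₀ : ℝ) ≤ 2 / a ^ (K + 9) := by
      rw [div_le_div_iff₀ hR0 hpow0]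
      linarith
    have h5 : Real.exp (-(ε * a / 16)) ≤ 1 / a ^ (K + 9) := by
      have := h3 a ha3
      rwa [div_mul_eq_mul_div] at this
    calc C2 * a ^ 6 * (1 / R₀ + Real.exp (-(ε * a / 16)))
        ≤ C2 * a ^ 6 * (2 / a ^ (K + 9) + 1 / a ^ (K + 9)) :=
          mul_le_mul_of_nonneg_left (add_le_add h4 h5) (by positivity)
      _ = _ := by ring
  have hsmall : ∑ r ∈ (Icc 2 M).filter (fun r => ¬ R₀ < r), TP a r / Nat.totient r
      ≤ C1 * a ^ (K + 9) / a ^ (2 * K + 12) := by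
    calc ∑ r ∈ (Icc 2 M).filter (fun r => ¬ R₀ < r), TP a r / Nat.totient r
        ≤ ∑ r ∈ (Icc 2 M).filter (fun r => ¬ R₀ < r), C1 / a ^ (2 * K + 12) := by
          refine sum_le_sum fun r hr => ?_
          rw [mem_filter, mem_Icc] at hr
          refine h1 a ha1 r hr.1.1 (le_trans ?_ hRle)
          exact_mod_cast not_lt.mp hr.2
      _ = ((#((Icc 2 M).filter (fun r => ¬ R₀ < r)) : ℕ) : ℝ) * (C1 / a ^ (2 * K + 12)) := by
          rw [sum_const, nsmul_eq_mul]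
      _ ≤ a ^ (K + 9) * (C1 / a ^ (2 * K + 12)) := by
          refine mul_le_mul_of_nonneg_right (le_trans ?_ hRle) (by positivity)
          have h4 : (Icc 2 M).filter (fun r => ¬ R₀ < r) ⊆ Icc 1 R₀ := by
            intro r hr
            rw [mem_filter, mem_Icc] at hr
            rw [mem_Icc]
            omega
          have h5 := card_le_card h4
          rw [Nat.card_Icc, Nat.add_sub_cancel] at h5
          exact_mod_cast h5
      _ = _ := by ring
  have htot : ∑ r ∈ Icc 2 M, TP a r / Nat.totient r ≤ (C1 + 3 * C2) / a ^ (K + 3) := by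
    rw [hsplit]
    have e1 : 3 * C2 * a ^ 6 / a ^ (K + 9) = 3 * C2 / a ^ (K + 3) := by
      rw [show K + 9 = (K + 3) + 6 by ring, pow_add]
      field_simp
    have e2 : C1 * a ^ (K + 9) / a ^ (2 * K + 12) = C1 / a ^ (K + 3) := by
      rw [show 2 * K + 12 = (K + 3) + (K + 9) by ring, pow_add a (K + 3) (K + 9)]
      field_simp
    rw [e2] at hsmall
    rw [e1] at hl2
    have e3 : (C1 + 3 * C2) / a ^ (K + 3) = C1 / a ^ (K + 3) + 3 * C2 / a ^ (K + 3) := by ring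
    linarith
  have h0 : 0 ≤ ∑ r ∈ Icc 2 M, TP a r / Nat.totient r :=
    sum_nonneg fun r _ => div_nonneg (B6_TP_nonneg a r) (Nat.cast_nonneg _)
  calc (∑ r ∈ Icc 2 M, TP a r / Nat.totient r) * ((1 + 2 * Real.log M) * (1 + Real.log M))
      ≤ ((C1 + 3 * C2) / a ^ (K + 3)) * (3 * a ^ 2) :=
        mul_le_mul htot hfac (by positivity) (by positivity)
    _ = 3 * (C1 + 3 * C2) / a ^ (K + 1) := by
        rw [show K + 3 = (K + 1) + 2 by ring, pow_add a (K + 1) 2]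
        field_simp
    _ ≤ 1 / a ^ K := by
        rw [div_le_div_iff₀ (by positivity) (by positivity), pow_succ]
        have : 0 < a ^ K := by positivity
        nlinarith

end Pool.Agent.helper85.FC
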