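import Pool.Agent.helper85.FC.Defs
import Pool.Agent.helper85.MT.Large

/-!
# FC module B7: the trivial bound for the error in a progression
-/

set_option autoImplicit false

namespace Pool.Agent.helper85.FC

open Finset Real ArithmeticFunction Pool.Agent.helper39.MT

lemma B7_lam_nonneg (n : ℕ) : 0 ≤ lam n := by
  unfold lam
  split_ifs
  · exact Real.log_natCast_nonneg n
  · exact le_rfl

/-- The number of `n ≤ N` in a residue class. -/
lemma B7_card (N m b : ℕ) :
    ((#{n ∈ Ioc 0 N | n ≡ b [MOD m]} : ℕ) : ℝ) ≤ N / m + 1 := by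
  have h1 : #{n ∈ Ioc 0 N | n ≡ b [MOD m]} ≤ N / m + 1 := by
    have h2 : ({n ∈ Ioc 0 N | n ≡ b [MOD m]}).card ≤ (range (N / m + 1)).card := by
      refine card_le_card_of_injOn (fun n => n / m) ?_ ?_
      · intro n hn
        rw [mem_coe, mem_filter, mem_Ioc] at hn
        rw [mem_coe, mem_range]
        exact Nat.lt_succ_of_le (Nat.div_le_div_right hn.1.2)
      · intro n hn n' hn' h
        rw [mem_coe, mem_filter] at hn hn'
        have h3 : n % m = n' % m := hn.2.trans hn'.2.symm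
        have h4 := Nat.div_add_mod n m
        have h5 := Nat.div_add_mod n' m
        simp only at h
        rw [h, h3] at h4
        omega
    rwa [card_range] at h2
  have h3 : ((N / m : ℕ) : ℝ) ≤ (N : ℝ) / m := Nat.cast_div_le
  have h4 : ((#{n ∈ Ioc 0 N | n ≡ b [MOD m]} : ℕ) : ℝ) ≤ ((N / m + 1 : ℕ) : ℝ) := by
    exact_mod_cast h1
  push_cast at h4
  linarith

/-- The sum over a progression. -/
lemma B7_sum {a : ℝ} (ha : 1 ≤ a) (m b : ℕ) (hm : 0 < m) (hma : (m : ℝ) ≤ Real.exp a) :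
    ∑ n ∈ Ioc 0 (NN 1 a) with n ≡ b [MOD m], lam n * wt 1 a n ≤ 8 * a / Nat.totient m := by
  have ha0 : 0 < a := by linarith
  have hea : 0 < Real.exp a := Real.exp_pos a
  have hm0 : (0 : ℝ) < m := by exact_mod_cast hm
  have hφ : (0 : ℝ) < Nat.totient m := by exact_mod_cast Nat.totient_pos.mpr hm
  have hφm : (Nat.totient m : ℝ) ≤ m := by exact_mod_cast Nat.totient_le m
  have h1 : ∀ n ∈ (Ioc 0 (NN 1 a)).filter (fun n => n ≡ b [MOD m]),
      lam n * wt 1 a n ≤ (a + 1) * (1 / Real.exp a) := by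
    intro n hn
    rw [mem_filter, mem_Ioc] at hn
    have hn0 : (0 : ℝ) < n := by exact_mod_cast hn.1.1
    have hlam : lam n ≤ a + 1 := by
      have h2 : Real.log n ≤ 1 + a := by
        have h3 := Pool.Agent.helper85.MT.log_NN_le (L := 1) (a := a) zero_le_one ha0.le
        have h4 : Real.log n ≤ Real.log (NN 1 a) :=
          Real.log_le_log hn0 (by exact_mod_cast hn.1.2)
        linarith
      unfold lam
      split_ifs <;> linarith
    by_cases h : (n : ℝ) ≤ Real.exp (1 / 2 + a)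
    · rw [Pool.Agent.helper85.MT.wt_left one_pos h, mul_zero]
      positivity
    · push Not at h
      refine mul_le_mul hlam ?_ (Pool.Agent.helper85.MT.wt_nonneg _ _ _) (by positivity)
      refine (Pool.Agent.helper85.MT.wt_le _ _ _).trans ?_
      refine one_div_le_one_div_of_le hea ?_
      exact (Real.exp_le_exp.mpr (by linarith)).trans h.le
  refine (sum_le_sum h1).trans ?_
  rw [sum_const, nsmul_eq_mul]
  have h2 := B7_card (NN 1 a) m b
  have h3 : ((NN 1 a : ℕ) : ℝ) ≤ Real.exp 1 * Real.exp a := by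
    rw [← Real.exp_add]
    exact Nat.floor_le (Real.exp_pos _).le
  have h4 : ((#{n ∈ Ioc 0 (NN 1 a) | n ≡ b [MOD m]} : ℕ) : ℝ) ≤ 4 * Real.exp a / m := by
    have h5 : (NN 1 a : ℝ) / m ≤ 3 * Real.exp a / m := by
      refine div_le_div_of_nonneg_right (h3.trans ?_) hm0.le
      have := Real.exp_one_lt_d9
      nlinarith
    have h6 : 1 ≤ Real.exp a / m := by rwa [le_div_iff₀ hm0, one_mul]
    have h7 : 4 * Real.exp a / m = 3 * Real.exp a / m + Real.exp a / m := by ring
    linarith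
  calc ((#{n ∈ Ioc 0 (NN 1 a) | n ≡ b [MOD m]} : ℕ) : ℝ) * ((a + 1) * (1 / Real.exp a))
      ≤ (4 * Real.exp a / m) * ((a + 1) * (1 / Real.exp a)) :=
        mul_le_mul_of_nonneg_right h4 (by positivity)
    _ = 4 * (a + 1) / m := by field_simp
    _ ≤ 8 * a / m := by
        refine div_le_div_of_nonneg_right (by linarith) hm0.le
    _ ≤ 8 * a / Nat.totient m := by
        refine div_le_div_of_nonneg_left (by positivity) hφ hφm

/-- B7: trivial bound. -/
theorem EP_trivial : ∃ C a₁ : ℝ, 0 < C ∧ ∀ a : ℝ, a₁ ≤ a → ∀ m b : ℕ, 0 < m →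
    (m : ℝ) ≤ Real.exp a → EP a m b ≤ C * a / (Nat.totient m : ℝ) := by
  refine ⟨8, 1, by norm_num, ?_⟩
  intro a ha m b hm hma
  have hφ : (0 : ℝ) < Nat.totient m := by exact_mod_cast Nat.totient_pos.mpr hm
  have h1 := B7_sum ha m b hm hma
  have h2 : 0 ≤ ∑ n ∈ Ioc 0 (NN 1 a) with n ≡ b [MOD m], lam n * wt 1 a n :=
    sum_nonneg fun n _ => mul_nonneg (B7_lam_nonneg n) (Pool.Agent.helper85.MT.wt_nonneg _ _ _)
  have h3 : pmass a ≤ 8 * a := by
    have h4 := B7_sum ha 1 0 one_pos (by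
      have : 1 ≤ Real.exp a := Real.one_le_exp (by linarith)
      simpa using this)
    have h5 : (Ioc 0 (NN 1 a)).filter (fun n => n ≡ 0 [MOD 1]) = Ioc 0 (NN 1 a) := by
      refine filter_true_of_mem fun n _ => ?_
      exact Nat.modEq_one
    rw [h5] at h4
    simpa [pmass] using h4
  have h4 : 0 ≤ pmass a :=
    sum_nonneg fun n _ => mul_nonneg (B7_lam_nonneg n) (Pool.Agent.helper85.MT.wt_nonneg _ _ _)
  have h5 : pmass a / Nat.totient m ≤ 8 * a / Nat.totient m := div_le_div_of_nonneg_right h3 hφ.le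
  have h6 : 0 ≤ pmass a / Nat.totient m := div_nonneg h4 hφ.le
  unfold EP
  rw [abs_le]
  constructor <;> linarith

end Pool.Agent.helper85.FC
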