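import Pool.Agent.helper29.FC.B6
import Pool.Agent.helper29.FC.B7
import Pool.Agent.helper99.MT.AN9L

/-!
# FC module B8: the Bombieri-Vinogradov theorem with divisor weights
-/

set_option autoImplicit false

namespace Pool.Agent.helper85.FC

open Finset Real ArithmeticFunction Pool.Agent.helper39.MT

/-- the sum of primitive character sums attached to the modulus `m`. -/
noncomputable def B8_t (a : ℝ) (m : ℕ) : ℝ :=
  (1 / (Nat.totient m : ℝ)) * ∑ r ∈ m.divisors with 2 ≤ r, TP a r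

lemma B8_t_nonneg (a : ℝ) (m : ℕ) : 0 ≤ B8_t a m :=
  mul_nonneg (by positivity) (sum_nonneg fun r _ => B6_TP_nonneg a r)

/-- weighted inequality between the minimum and the two numbers. -/
lemma B8_min {x y c l : ℝ} (hx : 0 ≤ x) (hy : 0 ≤ y) (hl : 0 < l) :
    c * min x y ≤ (l * x + c ^ 2 * y / l) / 2 := by
  set z := min x y with hz
  have hz0 : 0 ≤ z := le_min hx hy
  have hzx : z ≤ x := min_le_left _ _
  have hzy : z ≤ y := min_le_right _ _
  have h1 : 2 * c ≤ l + c ^ 2 / l := by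
    have h2 : 0 ≤ (l - c) ^ 2 / l := by positivity
    have h3 : (l - c) ^ 2 / l = l + c ^ 2 / l - 2 * c := by
      field_simp
      ring
    linarith
  have h2 : 2 * c * z ≤ (l + c ^ 2 / l) * z := mul_le_mul_of_nonneg_right h1 hz0
  have h3 : l * z ≤ l * x := mul_le_mul_of_nonneg_left hzx hl.le
  have h4 : c ^ 2 / l * z ≤ c ^ 2 / l * y := mul_le_mul_of_nonneg_left hzy (by positivity)
  have h5 : c ^ 2 / l * y = c ^ 2 * y / l := by ring
  linarith

/-- B8: **Bombieri-Vinogradov**, level `1/2`, with divisor weights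
(`bv := B8_bv_of EP_le bv_plain`). -/
theorem B8_bv_of
    (EP_le : ∃ C a₁ : ℝ, 0 < C ∧ ∀ a : ℝ, a₁ ≤ a → ∀ m b : ℕ, 0 < m →
      (m : ℝ) ≤ Real.exp a → Nat.Coprime b m →
      EP a m b ≤ (1 / (Nat.totient m : ℝ)) * ∑ r ∈ m.divisors with 2 ≤ r, TP a r
        + C * a ^ 3 * Real.exp (-a / 2))
    (bv_plain : ∀ ε : ℝ, 0 < ε → ε ≤ 1 / 4 → ∀ K : ℕ, ∃ a₁ : ℝ, ∀ a : ℝ, a₁ ≤ a →
      ∑ m ∈ Icc 1 ⌊Real.exp ((1 / 2 - ε) * a)⌋₊,
        ((1 / (Nat.totient m : ℝ)) * ∑ r ∈ m.divisors with 2 ≤ r, TP a r) ≤ 1 / a ^ K)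
    (A : ℕ) (hA : 0 < A) (ε : ℝ) (hε : 0 < ε) (hε1 : ε ≤ 1 / 4) (K h : ℕ) :
    ∃ a₁ : ℝ, ∀ a : ℝ, a₁ ≤ a → ∃ E : ℕ → ℝ, (∀ D, 0 ≤ E D) ∧
      (∀ D b : ℕ, 0 < D → (D : ℝ) ≤ Real.exp ((1 / 2 - ε) * a) → Nat.Coprime b (A * D) →
        EP (a + Real.log A) (A * D) b ≤ E D) ∧
      ∑ D ∈ Icc 1 ⌊Real.exp ((1 / 2 - ε) * a)⌋₊ with Squarefree D ∧ Nat.Coprime D A,
        (h : ℝ) ^ D.primeFactors.card * E D ≤ 1 / a ^ K := by
  obtain ⟨C1, a1, hC1, h1⟩ := EP_le
  obtain ⟨C2, a2, hC2, h2⟩ := EP_trivial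
  obtain ⟨C3, hC3, h3⟩ := AN9.sum_gg_le (h ^ 2)
  set J := K + h ^ 2 + 2 with hJ
  set P := J + K + 1 with hP
  obtain ⟨a4, h4⟩ := bv_plain (ε / 2) (by positivity) (by linarith) P
  obtain ⟨a5, h5⟩ := B6_exp ε hε (P + 3)
  have hlA : 0 ≤ Real.log A := Real.log_natCast_nonneg A
  have hA0 : (0 : ℝ) < A := by exact_mod_cast hA
  refine ⟨max (max (max a1 a2) (max a4 a5)) (max (max 1 (Real.log A))
    (max (2 * Real.log A / ε) (1 + 8 * C1 + 2 * C2 * C3))), fun a ha => ?_⟩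
  have ha1 : a1 ≤ a := le_trans (by simp) ha
  have ha2 : a2 ≤ a := le_trans (by simp) ha
  have ha4 : a4 ≤ a := le_trans (by simp) ha
  have ha5 : a5 ≤ a := le_trans (by simp) ha
  have ha6 : 1 ≤ a := le_trans (by simp) ha
  have ha7 : Real.log A ≤ a := le_trans (by simp) ha
  have ha8 : 2 * Real.log A / ε ≤ a := le_trans (by simp) ha
  have ha9 : 1 + 8 * C1 + 2 * C2 * C3 ≤ a := le_trans (by simp) ha
  have ha0 : 0 < a := by linarith
  set a' := a + Real.log A with ha'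
  have ha'a : a ≤ a' := by linarith
  have ha'2 : a' ≤ 2 * a := by linarith
  have ha'0 : 0 < a' := by linarith
  set M := ⌊Real.exp ((1 / 2 - ε) * a)⌋₊ with hM
  have hMle : (M : ℝ) ≤ Real.exp ((1 / 2 - ε) * a) := Nat.floor_le (Real.exp_pos _).le
  set M' := ⌊Real.exp ((1 / 2 - ε / 2) * a')⌋₊ with hM'
  have hexpA : Real.exp (Real.log A) = A := Real.exp_log hA0
  -- sizes
  have hsize : ∀ D : ℕ, (D : ℝ) ≤ Real.exp ((1 / 2 - ε) * a) →
      ((A * D : ℕ) : ℝ) ≤ Real.exp ((1 / 2 - ε / 2) * a') := by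
    intro D hD
    push_cast
    calc (A : ℝ) * D ≤ Real.exp (Real.log A) * Real.exp ((1 / 2 - ε) * a) := by
          rw [hexpA]
          exact mul_le_mul_of_nonneg_left hD hA0.le
      _ = Real.exp (Real.log A + (1 / 2 - ε) * a) := (Real.exp_add _ _).symm
      _ ≤ Real.exp ((1 / 2 - ε / 2) * a') := by
          refine Real.exp_le_exp.mpr ?_
          rw [ha']
          have h6 : 2 * Real.log A ≤ a * ε := by rwa [div_le_iff₀ hε] at ha8
          nlinarith
  have hsize2 : ∀ D : ℕ, (D : ℝ) ≤ Real.exp ((1 / 2 - ε) * a) →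
      ((A * D : ℕ) : ℝ) ≤ Real.exp a' := by
    intro D hD
    refine (hsize D hD).trans (Real.exp_le_exp.mpr ?_)
    nlinarith
  set x : ℕ → ℝ := fun D => B8_t a' (A * D) + C1 * a' ^ 3 * Real.exp (-a' / 2) with hx
  set y : ℕ → ℝ := fun D => C2 * a' / (Nat.totient (A * D) : ℝ) with hy
  have hx0 : ∀ D, 0 ≤ x D := fun D => add_nonneg (B8_t_nonneg _ _) (by positivity)
  have hy0 : ∀ D, 0 ≤ y D := fun D => by simp only [hy]; positivity
  refine ⟨fun D => min (x D) (y D), fun D => le_min (hx0 D) (hy0 D), ?_, ?_⟩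
  · intro D b hD hDa hb
    refine le_min ?_ ?_
    · exact h1 a' (ha1.trans ha'a) (A * D) b (Nat.mul_pos hA hD) (hsize2 D hDa) hb
    · exact h2 a' (ha2.trans ha'a) (A * D) b (Nat.mul_pos hA hD) (hsize2 D hDa)
  -- the sum
  set S := (Icc 1 M).filter (fun D => Squarefree D ∧ Nat.Coprime D A) with hS
  have hl : 0 < a ^ J := by positivity
  have hstep : ∀ D ∈ S, (h : ℝ) ^ D.primeFactors.card * min (x D) (y D)
      ≤ (a ^ J * x D + (h : ℝ) ^ (2 * D.primeFactors.card) * y D / a ^ J) / 2 := by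
    intro D _
    have h6 := B8_min (hx0 D) (hy0 D) (c := (h : ℝ) ^ D.primeFactors.card) hl
    rwa [← pow_mul, mul_comm D.primeFactors.card 2] at h6
  refine (sum_le_sum hstep).trans ?_
  rw [← sum_div, sum_add_distrib, ← mul_sum, ← sum_div]
  -- the first part
  have hsumx : ∑ D ∈ S, x D ≤ (1 + 8 * C1) / a ^ P := by
    simp only [hx]
    rw [sum_add_distrib, sum_const, nsmul_eq_mul]
    have e1 : ∑ D ∈ S, B8_t a' (A * D) ≤ 1 / a ^ P := by
      have e2 : ∑ D ∈ S, B8_t a' (A * D) = ∑ m ∈ S.image (fun D => A * D), B8_t a' m := by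
        rw [sum_image]
        intro D _ D' _ hDD
        exact Nat.eq_of_mul_eq_mul_left hA hDD
      rw [e2]
      have e3 : ∑ m ∈ S.image (fun D => A * D), B8_t a' m ≤ ∑ m ∈ Icc 1 M', B8_t a' m := by
        refine sum_le_sum_of_subset_of_nonneg ?_ fun m _ _ => B8_t_nonneg _ _
        intro m hm
        rw [mem_image] at hm
        obtain ⟨D, hD, rfl⟩ := hm
        rw [hS, mem_filter, mem_Icc] at hD
        rw [mem_Icc]
        refine ⟨Nat.mul_pos hA hD.1.1, Nat.le_floor (hsize D ?_)⟩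
        exact le_trans (by exact_mod_cast hD.1.2) hMle
      have e4 := h4 a' (ha4.trans ha'a)
      refine e3.trans (le_trans e4 ?_)
      refine one_div_le_one_div_of_le (by positivity) ?_
      exact pow_le_pow_left₀ ha0.le ha'a P
    have e5 : ((#S : ℕ) : ℝ) * (C1 * a' ^ 3 * Real.exp (-a' / 2)) ≤ 8 * C1 / a ^ P := by
      have e6 : ((#S : ℕ) : ℝ) ≤ Real.exp ((1 / 2 - ε) * a) := by
        refine le_trans ?_ hMle
        have e7 := card_le_card (filter_subset (fun D => Squarefree D ∧ Nat.Coprime D A) (Icc 1 M))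
        rw [Nat.card_Icc, Nat.add_sub_cancel] at e7
        exact_mod_cast e7
      have e8 : a' ^ 3 ≤ 8 * a ^ 3 := by
        calc a' ^ 3 ≤ (2 * a) ^ 3 := pow_le_pow_left₀ ha'0.le ha'2 3
          _ = 8 * a ^ 3 := by ring
      have e9 : Real.exp (-a' / 2) ≤ Real.exp (-a / 2) := Real.exp_le_exp.mpr (by linarith)
      have e10 : Real.exp ((1 / 2 - ε) * a) * Real.exp (-a / 2) = Real.exp (-(ε * a)) := by
        rw [← Real.exp_add]
        congr 1
        ring
      calc ((#S : ℕ) : ℝ) * (C1 * a' ^ 3 * Real.exp (-a' / 2))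
          ≤ Real.exp ((1 / 2 - ε) * a) * (C1 * (8 * a ^ 3) * Real.exp (-a / 2)) := by
            refine mul_le_mul e6 ?_ (by positivity) (Real.exp_pos _).le
            refine mul_le_mul ?_ e9 (Real.exp_pos _).le (by positivity)
            exact mul_le_mul_of_nonneg_left e8 hC1.le
        _ = 8 * C1 * a ^ 3 * (Real.exp ((1 / 2 - ε) * a) * Real.exp (-a / 2)) := by ring
        _ ≤ 8 * C1 * a ^ 3 * (1 / a ^ (P + 3)) := by
            rw [e10]
            exact mul_le_mul_of_nonneg_left (h5 a ha5) (by positivity)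
        _ = 8 * C1 / a ^ P := by
            rw [pow_add]
            field_simp
    have e11 : (1 + 8 * C1) / a ^ P = 1 / a ^ P + 8 * C1 / a ^ P := by ring
    linarith
  -- the second part
  have hsumy : ∑ D ∈ S, (h : ℝ) ^ (2 * D.primeFactors.card) * y D
      ≤ 2 * C2 * C3 * a ^ (h ^ 2 + 1) := by
    have e1 : ∀ D ∈ S, (h : ℝ) ^ (2 * D.primeFactors.card) * y D
        ≤ C2 * a' * AN9.gg (h ^ 2) D := by
      intro D hD
      rw [hS, mem_filter, mem_Icc] at hD
      have hφ : (0 : ℝ) < Nat.totient D := by exact_mod_cast Nat.totient_pos.mpr hD.1.1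
      have hφ2 : (Nat.totient D : ℝ) ≤ Nat.totient (A * D) := by
        have := Nat.totient_super_multiplicative A D
        have h7 : 1 ≤ Nat.totient A := Nat.totient_pos.mpr hA
        exact_mod_cast le_trans (Nat.le_mul_of_pos_left _ h7) this
      have e2 : y D ≤ C2 * a' / Nat.totient D :=
        div_le_div_of_nonneg_left (by positivity) hφ hφ2
      unfold AN9.gg
      push_cast
      calc (h : ℝ) ^ (2 * D.primeFactors.card) * y D
          ≤ (h : ℝ) ^ (2 * D.primeFactors.card) * (C2 * a' / Nat.totient D) :=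
            mul_le_mul_of_nonneg_left e2 (by positivity)
        _ = C2 * a' * (((h : ℝ) ^ 2) ^ D.primeFactors.card / Nat.totient D) := by
            rw [← pow_mul]
            ring
    refine (sum_le_sum e1).trans ?_
    rw [← mul_sum]
    have e3 : ∑ D ∈ S, AN9.gg (h ^ 2) D ≤ C3 * a ^ (h ^ 2) := by
      refine le_trans ?_ (h3 a ha6 M (hMle.trans (Real.exp_le_exp.mpr (by nlinarith))))
      refine sum_le_sum_of_subset_of_nonneg ?_ fun D _ _ => AN9.gg_nonneg _ _
      intro D hD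
      rw [hS, mem_filter] at hD
      rw [mem_filter]
      exact ⟨hD.1, hD.2.1⟩
    calc C2 * a' * ∑ D ∈ S, AN9.gg (h ^ 2) D ≤ (C2 * (2 * a)) * (C3 * a ^ (h ^ 2)) := by
          refine mul_le_mul ?_ e3 (sum_nonneg fun D _ => AN9.gg_nonneg _ _) (by positivity)
          exact mul_le_mul_of_nonneg_left ha'2 hC2.le
      _ = 2 * C2 * C3 * a ^ (h ^ 2 + 1) := by rw [pow_succ]; ring
  have e1 : a ^ J * ∑ D ∈ S, x D ≤ (1 + 8 * C1) / a ^ (K + 1) := by
    calc a ^ J * ∑ D ∈ S, x D ≤ a ^ J * ((1 + 8 * C1) / a ^ P) :=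
          mul_le_mul_of_nonneg_left hsumx hl.le
      _ = (1 + 8 * C1) / a ^ (K + 1) := by
          rw [hP, show J + K + 1 = J + (K + 1) by ring, pow_add a J (K + 1)]
          field_simp
  have e2 : (∑ D ∈ S, (h : ℝ) ^ (2 * D.primeFactors.card) * y D) / a ^ J
      ≤ 2 * C2 * C3 / a ^ (K + 1) := by
    calc (∑ D ∈ S, (h : ℝ) ^ (2 * D.primeFactors.card) * y D) / a ^ J
        ≤ 2 * C2 * C3 * a ^ (h ^ 2 + 1) / a ^ J := div_le_div_of_nonneg_right hsumy hl.le
      _ = 2 * C2 * C3 / a ^ (K + 1) := by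
          rw [hJ, show K + h ^ 2 + 2 = (K + 1) + (h ^ 2 + 1) by ring, pow_add a (K + 1)]
          field_simp
  calc (a ^ J * ∑ D ∈ S, x D + (∑ D ∈ S, (h : ℝ) ^ (2 * D.primeFactors.card) * y D) / a ^ J) / 2
      ≤ ((1 + 8 * C1) / a ^ (K + 1) + 2 * C2 * C3 / a ^ (K + 1)) / 2 := by
        have := add_le_add e1 e2
        linarith
    _ = (1 + 8 * C1 + 2 * C2 * C3) / 2 / a ^ (K + 1) := by ring
    _ ≤ 1 / a ^ K := by
        rw [div_le_div_iff₀ (by positivity) (by positivity), pow_succ]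
        have h7 : 0 < a ^ K := by positivity
        have h8 : 0 < C2 * C3 := mul_pos hC2 (by linarith)
        nlinarith

end Pool.Agent.helper85.FC
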